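import Pool.Agent.Run7.h487.BF.Base

/-!
Project BF: pieces DIMK and EXIT.
-/

set_option autoImplicit false

open Set Module

namespace Run7.h487.BF

open Run7.h480.BF

theorem t_DIMK : S_MAT → S_DIMK := by
  intro hMAT E _ M r hM x hx
  classical
  obtain ⟨N, hN, hNx⟩ := hMAT E M r hM x hx
  obtain ⟨B₀, hB₀⟩ := N.exists_isBase
  -- restriction to `B₀`
  let φ : LinK (Ini M x) →ₗ[ℝ] (B₀ → ℝ) :=
    { toFun := fun v b => v.1 b.1
      map_add' := fun _ _ => rfl
      map_smul' := fun _ _ => rfl }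
  have hinj : Function.Injective φ := by
    rw [← LinearMap.ker_eq_bot, LinearMap.ker_eq_bot']
    rintro ⟨v, hv⟩ h0
    have hv0 : ∀ b ∈ B₀, v b = 0 := fun b hb => congrFun h0 ⟨b, hb⟩
    have key : ∀ e, v e = 0 := by
      intro e
      by_cases he : e ∈ B₀
      · exact hv0 e he
      have hi : N.Indep {e} := (hN.nonloop e).indep
      obtain ⟨B₁, hB₁, heB₁, hsub⟩ := hi.exists_isBase_subset_union_isBase hB₀
      have h1 := hv B₁ ((hNx B₁).1 hB₁) B₀ ((hNx B₀).1 hB₀)
      have h2 : wt v B₀ = 0 := by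
        unfold wt
        refine Finset.sum_eq_zero fun i _ => ?_
        by_cases hi : i ∈ B₀
        · simp [hi, hv0 i hi]
        · simp [hi]
      have h3 : wt v B₁ = v e := by
        unfold wt
        rw [Finset.sum_eq_single e]
        · rw [Set.indicator_of_mem (heB₁ (mem_singleton e))]
        · intro i _ hie
          by_cases hi : i ∈ B₁
          · rcases hsub hi with h | h
            · exact absurd h hie
            · simp [hi, hv0 i h]
          · simp [hi]
        · intro h; exact absurd (Finset.mem_univ e) h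
      rw [← h3, h1, h2]
    ext e
    exact key e
  have h1 := LinearMap.finrank_le_finrank_of_injective hinj
  have h2 : finrank ℝ (B₀ → ℝ) = r := by
    rw [Module.finrank_fintype_fun_eq_card, ← Nat.card_eq_fintype_card, Nat.card_coe_set_eq,
      hN.rank B₀ hB₀]
  rwa [h2] at h1

theorem t_EXIT : S_BERG → S_DIMK → S_EXIT := by
  intro hB hD E _ M r hM w hw T x hx _ g hgx hgT u hu hgu huC
  classical
  -- the pairs which bound the exit time
  have huC' : ∃ B ∈ Ini M w, ∃ B', M.IsBase B' ∧ wt u B' < wt u B := by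
    by_contra hcon
    push Not at hcon
    exact huC fun B hB B' hB' => hcon B hB B' hB'
  set P : Set (Set E × Set E) := {p | p.1 ∈ Ini M w ∧ M.IsBase p.2 ∧ wt u p.2 < wt u p.1} with hP
  have hPne : P.Nonempty := by
    obtain ⟨B, hB, B', hB', h⟩ := huC'
    exact ⟨(B, B'), hB, hB', h⟩
  let q : Set E × Set E → ℝ := fun p => (wt x p.2 - wt x p.1) / (wt u p.1 - wt u p.2)
  obtain ⟨p₀, hp₀, hmin⟩ := (Set.toFinite P).exists_minimalFor q _ hPne
  have hmin' : ∀ p ∈ P, q p₀ ≤ q p := by
    intro p hp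
    rcases le_total (q p₀) (q p) with h | h
    · exact h
    · exact hmin hp h
  set s := q p₀ with hs
  have hs0 : 0 ≤ s := by
    refine div_nonneg ?_ ?_
    · have := hx p₀.1 hp₀.1 p₀.2 hp₀.2.1
      linarith
    · linarith [hp₀.2.2]
  have hbC : x + s • u ∈ cn M (Ini M w) := by
    intro B hBw B' hB'
    rw [wt_add, wt_add, wt_smul, wt_smul]
    rcases lt_or_ge (wt u B') (wt u B) with h | h
    · have h1 := hmin' (B, B') ⟨hBw, hB', h⟩
      have h2 : s ≤ (wt x B' - wt x B) / (wt u B - wt u B') := h1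
      rw [le_div_iff₀ (by linarith)] at h2
      nlinarith
    · have h1 := hx B hBw B' hB'
      have h2 := mul_le_mul_of_nonneg_left h hs0
      linarith
  refine ⟨x + s • u, ?_, ?_⟩
  · rintro z ⟨a, b, ha, hb, hab, rfl⟩
    refine ⟨cn_comb hx hbC ha hb, fun hz => ?_⟩
    have h1 := hgT _ hz
    have h2 : a • x + b • (x + s • u) = x + (b * s) • u := by
      rw [smul_add, ← add_assoc, ← add_smul, hab, one_smul, smul_smul]
    rw [h2, map_add, map_smul, smul_eq_mul] at h1
    have h3 : 0 ≤ b * s * g u := mul_nonneg (mul_nonneg hb hs0) hgu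
    linarith
  · have hbb : x + s • u ∈ berg M := cn_subset_berg hB hM hw hbC
    refine lt_of_le_of_ne (hD E M r hM _ hbb) fun heq => ?_
    have hsub : Ini M w ⊆ Ini M (x + s • u) := mem_cnI.1 hbC
    have hle : LinK (Ini M (x + s • u)) ≤ LinK (Ini M w) := LinK_anti hsub
    have heq2 : LinK (Ini M (x + s • u)) = LinK (Ini M w) :=
      Submodule.eq_of_le_of_finrank_le hle (by rw [heq]; exact hD E M r hM w hw)
    -- `p₀.2` has minimal weight too
    have hden : 0 < wt u p₀.1 - wt u p₀.2 := by linarith [hp₀.2.2]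
    have hwt : wt (x + s • u) p₀.2 = wt (x + s • u) p₀.1 := by
      rw [wt_add, wt_add, wt_smul, wt_smul]
      have h1 : s * (wt u p₀.1 - wt u p₀.2) = wt x p₀.2 - wt x p₀.1 := by
        rw [hs]; exact div_mul_cancel₀ _ hden.ne'
      linarith
    have h1 : p₀.1 ∈ Ini M (x + s • u) := hsub hp₀.1
    have h2 : p₀.2 ∈ Ini M (x + s • u) := ⟨hp₀.2.1, fun B' hB' => by rw [hwt]; exact h1.2 B' hB'⟩
    have h3 : u ∈ LinK (Ini M (x + s • u)) := by rw [heq2]; exact hu
    have h4 := h3 p₀.1 h1 p₀.2 h2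
    linarith

end Run7.h487.BF
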