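import Pool.Agent.Run7.h487.BF.DIMK

/-!
Project BF: pieces TOPA, TOPB, TOPC, TOP.
-/

set_option autoImplicit false

open Set Module

namespace Run7.h487.BF

open Run7.h480.BF

variable {E : Type} [Fintype E]

theorem t_TOPA : S_BERG → S_GOOD → S_DIMK → S_TWO → S_EXIT → S_TOPA := by
  intro hB hG hD h2 hX E _ M r hM w hw T hT hTC hc
  have hTC' : berg M \ cn M (Ini M w) ⊆ berg M \ T := fun x hx => ⟨hx.1, fun h => hx.2 (hTC h)⟩
  refine precon_of (hG E M r hM hc w hw) hTC' ?_
  -- small dimension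
  have small : ∀ x ∈ berg M, x ∉ T → finrank ℝ (LinK (Ini M x)) < r →
      ∃ y ∈ berg M \ cn M (Ini M w), segment ℝ x y ⊆ berg M \ T := by
    intro x hx hxT hlt
    obtain ⟨y, hy, hyx, hyw⟩ := h2 E M r hM x hx hlt w hw
    exact ⟨y, ⟨hy, fun h => hyw (mem_cnI.1 h)⟩, seg_out hB hM hTC hx hxT hy hyx hyw⟩
  intro x hx
  by_cases hlt : finrank ℝ (LinK (Ini M x)) < r
  · obtain ⟨y, hy, hseg⟩ := small x hx.1 hx.2 hlt
    exact ⟨segment ℝ x y, hseg, left_mem_segment ℝ x y, seg_precon x y, y,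
      right_mem_segment ℝ x y, hy⟩
  have heq : finrank ℝ (LinK (Ini M x)) = r := le_antisymm (hD E M r hM x hx.1) (not_lt.1 hlt)
  by_cases hxC : x ∈ cn M (Ini M w)
  · obtain ⟨g, hgx, hgT⟩ := poly_sep hT hx.2
    have hW : r ≤ finrank ℝ (LinK (Ini M w)) := by
      rw [← heq]
      exact Submodule.finrank_mono (LinK_anti (mem_cnI.1 hxC))
    have hu : ∃ u ∈ LinK (Ini M w), 0 ≤ g u ∧ u ∉ cn M (Ini M w) := by
      by_contra hcon
      push Not at hcon
      have hle : LinK (Ini M w) ⊓ LinearMap.ker g ≤ LinK {B | M.IsBase B} := by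
        intro v hv
        have h0 : g v = 0 := hv.2
        refine mem_L_of (Ini_nonempty M w) (fun _ h => h.1) (hcon v hv.1 h0.ge) ?_
        exact hcon (-v) (Submodule.neg_mem _ hv.1) (by rw [map_neg, h0, neg_zero])
      have h3 := Submodule.finrank_mono hle
      have h4 := finrank_inf_ker (LinK (Ini M w)) g
      omega
    obtain ⟨u, hu1, hu2, hu3⟩ := hu
    obtain ⟨b, hb1, hb2⟩ := hX E M r hM w hw T x hxC heq g hgx hgT u hu1 hu2 hu3
    have hbm := hb1 (right_mem_segment ℝ x b)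
    obtain ⟨y, hy, hseg⟩ := small b (cn_subset_berg hB hM hw hbm.1) hbm.2 hb2
    refine ⟨segment ℝ x b ∪ segment ℝ b y, union_subset (fun z hz => ?_) hseg,
      Or.inl (left_mem_segment ℝ x b), ?_, y, Or.inr (right_mem_segment ℝ b y), hy⟩
    · exact ⟨cn_subset_berg hB hM hw (hb1 hz).1, (hb1 hz).2⟩
    · exact IsPreconnected.union b (right_mem_segment ℝ x b) (left_mem_segment ℝ b y)
        (seg_precon x b) (seg_precon b y)
  · exact ⟨{x}, singleton_subset_iff.2 hx, mem_singleton x, isPreconnected_singleton, x,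
      mem_singleton x, hx.1, hxC⟩

theorem t_TOPB : S_BERG → S_DIMK → S_TWO → S_EXIT → S_TOPB := by
  intro hB hD h2 hX E _ M r hM w hw T hT hTC hc hlin
  set L : Submodule ℝ (E → ℝ) := LinK {B | M.IsBase B} with hL
  have hKw : ∀ B ∈ Ini M w, M.IsBase B := fun _ h => h.1
  have hLC : ∀ u ∈ L, u ∈ cn M (Ini M w) := fun u hu => L_mem_cn hKw hu
  have hLb : ∀ u ∈ L, u ∈ berg M := fun u hu => cn_subset_berg hB hM hw (hLC u hu)
  -- a point of `L` outside `T`
  have hz : ∃ z ∈ L, z ∉ T := by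
    by_contra hcon
    push Not at hcon
    have h3 := Submodule.finrank_mono (sub_lineality L (T := T) fun v hv => hcon v hv)
    omega
  obtain ⟨z, hzL, hzT⟩ := hz
  have hzb := hLb z hzL
  -- points outside `C`
  have outC : ∀ x ∈ berg M, x ∉ cn M (Ini M w) → segment ℝ x z ⊆ berg M \ T := by
    intro x hx hxC
    rw [segment_symm]
    refine seg_out hB hM hTC hzb hzT hx ?_ (fun h => hxC (mem_cnI.2 h))
    rw [Ini_L hzL]
    exact fun _ h => h.1
  -- points of `L`
  have inL : ∀ x ∈ L, x ∉ T → ∃ t ⊆ berg M \ T, x ∈ t ∧ IsPreconnected t ∧ (t ∩ {z}).Nonempty := by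
    intro x hx hxT
    have hxb := hLb x hx
    have hdim : finrank ℝ (LinK (Ini M x)) < r := by
      rw [Ini_L hx, ← hL]
      omega
    obtain ⟨y, hy, hyx, hyw⟩ := h2 E M r hM x hxb hdim w hw
    have h4 := seg_out hB hM hTC hxb hxT hy hyx hyw
    have h5 := outC y hy (fun h => hyw (mem_cnI.1 h))
    refine ⟨segment ℝ x y ∪ segment ℝ y z, union_subset h4 h5, Or.inl (left_mem_segment ℝ x y), ?_,
      z, Or.inr (right_mem_segment ℝ y z), mem_singleton z⟩
    exact IsPreconnected.union y (right_mem_segment ℝ x y) (left_mem_segment ℝ y z)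
      (seg_precon x y) (seg_precon y z)
  refine precon_of (G := {z}) isPreconnected_singleton (singleton_subset_iff.2 ⟨hzb, hzT⟩) ?_
  rintro x ⟨hxb, hxT⟩
  by_cases hxC : x ∈ cn M (Ini M w)
  swap
  · exact ⟨segment ℝ x z, outC x hxb hxC, left_mem_segment ℝ x z, seg_precon x z, z,
      right_mem_segment ℝ x z, mem_singleton z⟩
  by_cases hxL : x ∈ L
  · exact inL x hxL hxT
  -- `x ∈ C \ L`
  have hdim : finrank ℝ (LinK (Ini M x)) = r := by
    refine le_antisymm (hD E M r hM x hxb) ?_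
    have h3 : L < LinK (Ini M x) := by
      refine lt_of_le_of_ne (L_le M x) fun h => hxL ?_
      rw [h]
      exact self_mem_LinK M x
    have h4 := Submodule.finrank_lt_finrank_of_lt h3
    omega
  obtain ⟨g, hgx, hgT⟩ := poly_sep hT hxT
  by_cases hu : ∃ u ∈ LinK (Ini M w), 0 ≤ g u ∧ u ∉ cn M (Ini M w)
  · obtain ⟨u, hu1, hu2, hu3⟩ := hu
    obtain ⟨b, hb1, hb2⟩ := hX E M r hM w hw T x hxC hdim g hgx hgT u hu1 hu2 hu3
    have hbm := hb1 (right_mem_segment ℝ x b)
    have hbL : b ∈ L := by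
      have h3 : L = LinK (Ini M b) := Submodule.eq_of_le_of_finrank_le (L_le M b) (by omega)
      rw [h3]
      exact self_mem_LinK M b
    obtain ⟨t, ht, hbt, hp, hne⟩ := inL b hbL hbm.2
    refine ⟨segment ℝ x b ∪ t, union_subset (fun v hv => ?_) ht,
      Or.inl (left_mem_segment ℝ x b), ?_, ?_⟩
    · exact ⟨cn_subset_berg hB hM hw (hb1 hv).1, (hb1 hv).2⟩
    · exact IsPreconnected.union b (right_mem_segment ℝ x b) hbt (seg_precon x b) hp
    · obtain ⟨v, hv⟩ := hne
      exact ⟨v, Or.inr hv.1, hv.2⟩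
  · push Not at hu
    have hTL : ∀ y ∈ T, y ∈ L := by
      intro y hy
      have hyC := hTC hy
      have hyW : y ∈ LinK (Ini M w) := cn_le_LinK hKw hyC
      refine mem_L_of (Ini_nonempty M w) hKw hyC (hu (-y) (Submodule.neg_mem _ hyW) ?_)
      rw [map_neg]
      linarith [hgT y hy]
    refine ⟨segment ℝ x z, ?_, left_mem_segment ℝ x z, seg_precon x z, z,
      right_mem_segment ℝ x z, mem_singleton z⟩
    rintro v ⟨s, t, hs, ht, hst, rfl⟩
    refine ⟨cn_subset_berg hB hM hw (cn_comb hxC (hLC z hzL) hs ht), fun hv => ?_⟩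
    rcases hs.eq_or_lt with h | h
    · have : t = 1 := by linarith
      subst h; subst this
      simp only [zero_smul, one_smul, zero_add] at hv
      exact hzT hv
    · have h3 := hTL _ hv
      have h4 : s • x ∈ L := by
        have := L.sub_mem h3 (L.smul_mem t hzL)
        rwa [add_sub_cancel_right] at this
      exact hxL ((L.smul_mem_iff h.ne').1 h4)

theorem t_TOPC : S_BERG → S_DIMK → S_TOPC := by
  intro hB hD E _ M r hM w hw T hT hTC hc hlin
  set L : Submodule ℝ (E → ℝ) := LinK {B | M.IsBase B} with hL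
  have hKw : ∀ B ∈ Ini M w, M.IsBase B := fun _ h => h.1
  have hLb : ∀ u ∈ L, u ∈ berg M := fun u hu => cn_subset_berg hB hM hw (L_mem_cn hKw hu)
  have hbL : ∀ u ∈ berg M, u ∈ L := by
    intro u hu
    have h3 : L = LinK (Ini M u) :=
      Submodule.eq_of_le_of_finrank_le (L_le M u) (by rw [hc]; exact hD E M r hM u hu)
    rw [h3]
    exact self_mem_LinK M u
  -- segments on which a separating form is positive
  have seg : ∀ x ∈ L, ∀ y ∈ L, ∀ g : (E → ℝ) →ₗ[ℝ] ℝ, 0 < g x → 0 < g y → (∀ v ∈ T, g v ≤ 0) →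
      segment ℝ x y ⊆ berg M \ T := by
    rintro x hx y hy g hgx hgy hgT v ⟨s, t, hs, ht, hst, rfl⟩
    refine ⟨hLb _ (L.add_mem (L.smul_mem s hx) (L.smul_mem t hy)), fun hv => ?_⟩
    have h3 := hgT _ hv
    rw [map_add, map_smul, map_smul, smul_eq_mul, smul_eq_mul] at h3
    rcases hs.eq_or_lt with h | h
    · have h4 : t = 1 := by linarith
      subst h; subst h4
      linarith
    · have h4 := mul_pos h hgx
      have h5 := mul_nonneg ht hgy.le
      linarith
  refine isPreconnected_of_forall_pair ?_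
  rintro x ⟨hxb, hxT⟩ y ⟨hyb, hyT⟩
  have hx := hbL x hxb
  have hy := hbL y hyb
  obtain ⟨f, hfx, hfT⟩ := poly_sep hT hxT
  obtain ⟨g, hgy, hgT⟩ := poly_sep hT hyT
  by_cases hu : ∃ u ∈ L, 0 < f u ∧ 0 < g u
  · obtain ⟨u, huL, h1, h2⟩ := hu
    refine ⟨segment ℝ x u ∪ segment ℝ u y, union_subset (seg x hx u huL f hfx h1 hfT)
      (seg u huL y hy g h2 hgy hgT), Or.inl (left_mem_segment ℝ x u),
      Or.inr (right_mem_segment ℝ u y), ?_⟩
    exact IsPreconnected.union u (right_mem_segment ℝ x u) (left_mem_segment ℝ u y)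
      (seg_precon x u) (seg_precon u y)
  · push Not at hu
    have hz : ∃ z ∈ L ⊓ LinearMap.ker f, z ∉ T := by
      by_contra hcon
      push Not at hcon
      have h3 := Submodule.finrank_mono (sub_lineality (L ⊓ LinearMap.ker f) (T := T)
        fun v hv => hcon v hv)
      have h4 := finrank_inf_ker L f
      omega
    obtain ⟨z, ⟨hzL, hzf⟩, hzT⟩ := hz
    have hzf' : f z = 0 := hzf
    obtain ⟨h, hhz, hhT⟩ := poly_sep hT hzT
    -- choose `ε`
    obtain ⟨ε, hε, hε1⟩ : ∃ ε : ℝ, 0 < ε ∧ ε * |h x| < h z := by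
      refine ⟨h z / (2 * (|h x| + 1)), by positivity, ?_⟩
      have h1 : 0 ≤ |h x| := abs_nonneg _
      rw [div_mul_eq_mul_div, div_lt_iff₀ (by positivity)]
      nlinarith
    have hε2 : -(h z) < ε * h x ∧ ε * h x < h z := by
      have h1 : |ε * h x| < h z := by rw [abs_mul, abs_of_pos hε]; exact hε1
      exact abs_lt.1 h1
    have hu1L : z + ε • x ∈ L := L.add_mem hzL (L.smul_mem ε hx)
    have hu2L : z - ε • x ∈ L := L.sub_mem hzL (L.smul_mem ε hx)
    have f1 : 0 < f (z + ε • x) := by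
      rw [map_add, map_smul, hzf', smul_eq_mul, zero_add]
      exact mul_pos hε hfx
    have f2 : f (z - ε • x) < 0 := by
      rw [map_sub, map_smul, hzf', smul_eq_mul, zero_sub]
      linarith [mul_pos hε hfx]
    have h1 : 0 < h (z + ε • x) := by
      rw [map_add, map_smul, smul_eq_mul]; linarith [hε2.1]
    have h2 : 0 < h (z - ε • x) := by
      rw [map_sub, map_smul, smul_eq_mul]; linarith [hε2.2]
    -- `g` is positive at `z - ε x`
    have g2 : 0 < g (z - ε • x) := by
      by_contra hcon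
      push Not at hcon
      -- `- (z - ε x) + δ y`
      set F := f (z - ε • x) with hF
      have hFy : ∃ δ : ℝ, 0 < δ ∧ 0 < -F + δ * f y := by
        refine ⟨-F / (2 * (|f y| + 1)), div_pos (by linarith) (by positivity), ?_⟩
        have h5 : 0 ≤ |f y| := abs_nonneg _
        have h6 : -|f y| ≤ f y := neg_abs_le _
        have h7 : 0 < -F / (2 * (|f y| + 1)) := div_pos (by linarith) (by positivity)
        have h8 : -F / (2 * (|f y| + 1)) * (2 * (|f y| + 1)) = -F :=
          div_mul_cancel₀ _ (by positivity)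
        nlinarith
      obtain ⟨δ, hδ, hδ2⟩ := hFy
      have h5 := hu (-(z - ε • x) + δ • y) (L.add_mem (L.neg_mem hu2L) (L.smul_mem δ hy)) (by
        rw [map_add, map_neg, map_smul, smul_eq_mul]; exact hδ2)
      rw [map_add, map_neg, map_smul, smul_eq_mul] at h5
      have h6 := mul_pos hδ hgy
      linarith
    refine ⟨(segment ℝ x (z + ε • x) ∪ segment ℝ (z + ε • x) (z - ε • x)) ∪
      segment ℝ (z - ε • x) y, union_subset (union_subset (seg _ hx _ hu1L f hfx f1 hfT)
      (seg _ hu1L _ hu2L h h1 h2 hhT)) (seg _ hu2L _ hy g g2 hgy hgT),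
      Or.inl (Or.inl (left_mem_segment ℝ _ _)), Or.inr (right_mem_segment ℝ _ _), ?_⟩
    refine IsPreconnected.union (z - ε • x) (Or.inr (right_mem_segment ℝ _ _))
      (left_mem_segment ℝ _ _) ?_ (seg_precon _ _)
    exact IsPreconnected.union (z + ε • x) (right_mem_segment ℝ _ _) (left_mem_segment ℝ _ _)
      (seg_precon _ _) (seg_precon _ _)

theorem t_TOP : S_TOPA → S_TOPB → S_TOPC → S_DIMK → S_TOP := by
  intro hA hBB hC hD E _ M r hM w hw T hT hTC hlin
  have h1 : finrank ℝ (LinK {B | M.IsBase B}) ≤ r :=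
    (Submodule.finrank_mono (L_le M w)).trans (hD E M r hM w hw)
  by_cases h2 : finrank ℝ (LinK {B | M.IsBase B}) + 2 ≤ r
  · exact hA E M r hM w hw T hT hTC h2
  by_cases h3 : finrank ℝ (LinK {B | M.IsBase B}) + 1 = r
  · exact hBB E M r hM w hw T hT hTC h3 hlin
  · exact hC E M r hM w hw T hT hTC (by omega) hlin

end Run7.h487.BF
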