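import Pool.Agent.Run7.h480.BF.Iface

/-!
Project BF: weights, cones `cn`, spaces `LinK`, segments, separation.
-/

set_option autoImplicit false

open Set Module

namespace Run7.h487.BF

open Run7.h480.BF

variable {E : Type} [Fintype E]

lemma wt_add (a b : E → ℝ) (C : Set E) : wt (a + b) C = wt a C + wt b C := by
  simp [wt, Set.indicator_add', Finset.sum_add_distrib]

lemma wt_smul (c : ℝ) (a : E → ℝ) (C : Set E) : wt (c • a) C = c * wt a C := by
  simp only [wt, Finset.mul_sum]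
  refine Finset.sum_congr rfl fun i _ => ?_
  by_cases hi : i ∈ C <;> simp [hi]

lemma wt_neg (a : E → ℝ) (C : Set E) : wt (-a) C = -wt a C := by
  have := wt_smul (-1) a C
  simpa using this

lemma wt_sub (a b : E → ℝ) (C : Set E) : wt (a - b) C = wt a C - wt b C := by
  rw [sub_eq_add_neg, wt_add, wt_neg]; ring

lemma wt_zero (C : Set E) : wt (0 : E → ℝ) C = 0 := by simp [wt]

lemma wt_comb (s t : ℝ) (a b : E → ℝ) (C : Set E) :
    wt (s • a + t • b) C = s * wt a C + t * wt b C := by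
  rw [wt_add, wt_smul, wt_smul]

lemma wt_cont (C : Set E) : Continuous fun x : E → ℝ => wt x C := by
  unfold wt
  refine continuous_finset_sum _ fun i _ => ?_
  by_cases hi : i ∈ C
  · simpa [hi] using continuous_apply i
  · simpa [hi] using continuous_const

lemma fin_sets (K : Set (Set E)) : K.Finite := Set.toFinite K

lemma Ini_nonempty (M : Matroid E) (w : E → ℝ) : (Ini M w).Nonempty := by
  obtain ⟨B, hB⟩ := M.exists_isBase
  obtain ⟨B₁, hB₁, hmin⟩ := (fin_sets {B : Set E | M.IsBase B}).exists_minimalFor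
    (fun B => wt w B) _ ⟨B, hB⟩
  refine ⟨B₁, hB₁, fun B' hB' => ?_⟩
  rcases le_total (wt w B₁) (wt w B') with h | h
  · exact h
  · exact hmin hB' h

lemma Ini_base {M : Matroid E} {w : E → ℝ} {B : Set E} (h : B ∈ Ini M w) : M.IsBase B := h.1

lemma mem_berg_of (hB : S_BERG) {M : Matroid E} {r : ℕ} (hM : OK M r) {x y : E → ℝ}
    (hy : y ∈ berg M) (h : Ini M y ⊆ Ini M x) : x ∈ berg M := by
  rw [hB E M r hM] at hy ⊢
  intro e
  obtain ⟨B, hB, he⟩ := hy e
  exact ⟨B, h hB, he⟩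

lemma mem_cn_iff {M : Matroid E} {K : Set (Set E)} (hK : ∀ B ∈ K, M.IsBase B) (x : E → ℝ) :
    x ∈ cn M K ↔ K ⊆ Ini M x :=
  ⟨fun h B hB => ⟨hK B hB, h B hB⟩, fun h B hB => (h hB).2⟩

lemma mem_cnI {M : Matroid E} {w x : E → ℝ} : x ∈ cn M (Ini M w) ↔ Ini M w ⊆ Ini M x :=
  mem_cn_iff (fun _ h => h.1) x

lemma self_mem_cn (M : Matroid E) (w : E → ℝ) : w ∈ cn M (Ini M w) := mem_cnI.2 subset_rfl

lemma cn_subset_berg (hB : S_BERG) {M : Matroid E} {r : ℕ} (hM : OK M r) {w : E → ℝ}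
    (hw : w ∈ berg M) : cn M (Ini M w) ⊆ berg M := fun _ hx => mem_berg_of hB hM hw (mem_cnI.1 hx)

lemma cn_comb {M : Matroid E} {K : Set (Set E)} {x y : E → ℝ} (hx : x ∈ cn M K) (hy : y ∈ cn M K)
    {s t : ℝ} (hs : 0 ≤ s) (ht : 0 ≤ t) : s • x + t • y ∈ cn M K := by
  intro B hB B' hB'
  rw [wt_comb, wt_comb]
  have h1 := mul_le_mul_of_nonneg_left (hx B hB B' hB') hs
  have h2 := mul_le_mul_of_nonneg_left (hy B hB B' hB') ht
  linarith

lemma cn_convex (M : Matroid E) (K : Set (Set E)) : Convex ℝ (cn M K) := by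
  intro x hx y hy s t hs ht _
  exact cn_comb hx hy hs ht

lemma LinK_anti {K K' : Set (Set E)} (h : K ⊆ K') : LinK K' ≤ LinK K :=
  fun _ hv B hB B' hB' => hv B (h hB) B' (h hB')

lemma self_mem_LinK (M : Matroid E) (y : E → ℝ) : y ∈ LinK (Ini M y) :=
  fun _ hB _ hB' => le_antisymm (hB.2 _ hB'.1) (hB'.2 _ hB.1)

lemma L_le (M : Matroid E) (y : E → ℝ) : LinK {B | M.IsBase B} ≤ LinK (Ini M y) :=
  LinK_anti fun _ h => h.1

lemma cn_le_LinK {M : Matroid E} {K : Set (Set E)} (hK : ∀ B ∈ K, M.IsBase B) {x : E → ℝ}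
    (hx : x ∈ cn M K) : x ∈ LinK K :=
  fun B hB B' hB' => le_antisymm (hx B hB B' (hK _ hB')) (hx B' hB' B (hK _ hB))

lemma L_mem_cn {M : Matroid E} {K : Set (Set E)} (hK : ∀ B ∈ K, M.IsBase B) {u : E → ℝ}
    (hu : u ∈ LinK {B | M.IsBase B}) : u ∈ cn M K :=
  fun B hB B' hB' => (hu B (hK B hB) B' hB').le

lemma Ini_L {M : Matroid E} {u : E → ℝ} (hu : u ∈ LinK {B | M.IsBase B}) :
    Ini M u = {B | M.IsBase B} := by
  ext B
  exact ⟨fun h => h.1, fun h => ⟨h, fun B' hB' => (hu B h B' hB').le⟩⟩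

lemma mem_L_of {M : Matroid E} {K : Set (Set E)} (hne : K.Nonempty) (hK : ∀ B ∈ K, M.IsBase B)
    {u : E → ℝ} (h1 : u ∈ cn M K) (h2 : -u ∈ cn M K) : u ∈ LinK {B | M.IsBase B} := by
  obtain ⟨B₀, hB₀⟩ := hne
  have key : ∀ B, M.IsBase B → wt u B = wt u B₀ := by
    intro B hB
    have h3 := h1 B₀ hB₀ B hB
    have h4 := h2 B₀ hB₀ B hB
    rw [wt_neg, wt_neg] at h4
    linarith
  intro B hB B' hB'
  rw [key B hB, key B' hB']

/-- on the half open segment the initial matroid is the one of `y` -/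
lemma Ini_comb {M : Matroid E} {x y : E → ℝ} (h : Ini M y ⊆ Ini M x) {s t : ℝ} (hs : 0 ≤ s)
    (ht : 0 < t) : Ini M (s • x + t • y) = Ini M y := by
  obtain ⟨B₀, hB₀⟩ := Ini_nonempty M y
  have hB₀x := h hB₀
  ext B
  constructor
  · intro hB
    refine ⟨hB.1, fun B' hB' => ?_⟩
    have h1 := hB.2 B₀ hB₀.1
    rw [wt_comb, wt_comb] at h1
    have h2 := mul_le_mul_of_nonneg_left (hB₀x.2 B hB.1) hs
    have h3 : t * wt y B ≤ t * wt y B₀ := by linarith
    have h4 := le_of_mul_le_mul_left h3 ht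
    exact h4.trans (hB₀.2 B' hB')
  · intro hB
    refine ⟨hB.1, fun B' hB' => ?_⟩
    rw [wt_comb, wt_comb]
    have h1 := mul_le_mul_of_nonneg_left ((h hB).2 B' hB') hs
    have h2 := mul_le_mul_of_nonneg_left (hB.2 B' hB') ht.le
    linarith

/-- The segment from `x` to `y` when `Ini M y ⊆ Ini M x` and `y ∉ C`. -/
lemma seg_out (hB : S_BERG) {M : Matroid E} {r : ℕ} (hM : OK M r) {w x y : E → ℝ} {T : Set (E → ℝ)}
    (hT : T ⊆ cn M (Ini M w)) (hx : x ∈ berg M) (hxT : x ∉ T) (hy : y ∈ berg M)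
    (hyx : Ini M y ⊆ Ini M x) (hyC : ¬ Ini M w ⊆ Ini M y) : segment ℝ x y ⊆ berg M \ T := by
  rintro z ⟨s, t, hs, ht, hst, rfl⟩
  rcases ht.eq_or_lt with h | h
  · have : s = 1 := by linarith
    subst h; subst this
    simpa using ⟨hx, hxT⟩
  · have h1 := Ini_comb hyx hs h
    refine ⟨mem_berg_of hB hM hy h1.ge, fun hz => hyC ?_⟩
    have := mem_cnI.1 (hT hz)
    rwa [h1] at this

/-- separation of a point from a polyhedral cone -/
lemma poly_sep {T : Set (E → ℝ)} (hT : IsPoly T) {x : E → ℝ} (hx : x ∉ T) :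
    ∃ g : (E → ℝ) →ₗ[ℝ] ℝ, 0 < g x ∧ ∀ y ∈ T, g y ≤ 0 := by
  obtain ⟨n, f, rfl⟩ := hT
  simp only [mem_setOf_eq, not_forall, not_le] at hx
  obtain ⟨i, hi⟩ := hx
  refine ⟨-f i, ?_, fun y hy => ?_⟩
  · simpa using hi
  · have := hy i
    simpa using this

/-- the dimension of the intersection with a hyperplane -/
lemma finrank_inf_ker (W : Submodule ℝ (E → ℝ)) (g : (E → ℝ) →ₗ[ℝ] ℝ) :
    finrank ℝ W ≤ finrank ℝ (W ⊓ LinearMap.ker g : Submodule ℝ (E → ℝ)) + 1 := by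
  have h1 := LinearMap.finrank_range_add_finrank_ker (g.comp W.subtype)
  have h2 : finrank ℝ (LinearMap.range (g.comp W.subtype)) ≤ 1 := by
    have := Submodule.finrank_le (LinearMap.range (g.comp W.subtype))
    simpa using this
  have h3 : finrank ℝ (LinearMap.ker (g.comp W.subtype)) =
      finrank ℝ (W ⊓ LinearMap.ker g : Submodule ℝ (E → ℝ)) := by
    have h4 : LinearMap.ker (g.comp W.subtype) = (LinearMap.ker g).comap W.subtype := rfl
    rw [h4]
    have h5 : (W ⊓ LinearMap.ker g : Submodule ℝ (E → ℝ)) =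
        ((LinearMap.ker g).comap W.subtype).map W.subtype := by
      rw [Submodule.map_comap_subtype]
    rw [h5]
    exact (Submodule.equivMapOfInjective _ W.injective_subtype _).finrank_eq
  omega

/-- a subspace contained in a cone is contained in its lineality space -/
lemma sub_lineality {T : Set (E → ℝ)} (W : Submodule ℝ (E → ℝ)) (h : (W : Set (E → ℝ)) ⊆ T) :
    W ≤ Submodule.span ℝ {v | v ∈ T ∧ -v ∈ T} := by
  intro v hv
  exact Submodule.subset_span ⟨h hv, h (W.neg_mem hv)⟩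

/-- preconnected sets from joining to one preconnected subset -/
lemma precon_of {X : Set (E → ℝ)} {G : Set (E → ℝ)} (hG : IsPreconnected G) (hGX : G ⊆ X)
    (h : ∀ x ∈ X, ∃ t ⊆ X, x ∈ t ∧ IsPreconnected t ∧ (t ∩ G).Nonempty) : IsPreconnected X := by
  rcases X.eq_empty_or_nonempty with rfl | ⟨x₀, hx₀⟩
  · exact isPreconnected_empty
  obtain ⟨t₀, ht₀, hxt₀, hp₀, z₀, hz₀⟩ := h x₀ hx₀
  refine isPreconnected_of_forall z₀ fun y hy => ?_
  obtain ⟨t, ht, hyt, hp, z, hz⟩ := h y hy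
  refine ⟨t ∪ G, union_subset ht hGX, Or.inr hz₀.2, Or.inl hyt, ?_⟩
  exact IsPreconnected.union z hz.1 hz.2 hp hG

lemma seg_precon (x y : E → ℝ) : IsPreconnected (segment ℝ x y) :=
  (convex_segment x y).isPreconnected

end Run7.h487.BF
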